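import Pool.Agent.H79.PowInd

/-! One polynomial whose image determines every non-degenerate endomorphism. -/

set_option autoImplicit false

namespace Pool.Agent.Results.MP_d61c7e_al.Exists

open Pool.Agent.H79.PowInd

/-- The image of the endomorphism contains a non-constant polynomial. -/
def NonDegenerate {K : Type*} [Field K] {n : ℕ}
    (φ : MvPolynomial (Fin n) K →ₐ[K] MvPolynomial (Fin n) K) : Prop :=
  ∃ f, ∀ c : K, φ f ≠ MvPolynomial.C c

lemma avoid {τ ι R : Type*} [CommRing R] [IsDomain R] [Infinite R] [Fintype ι]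
    (P : ι → MvPolynomial τ R) (h : ∀ i, P i ≠ 0) : ∃ s, ∀ i, MvPolynomial.eval s (P i) ≠ 0 := by
  by_contra! hc
  refine Finset.prod_ne_zero_iff.2 (fun i (_ : i ∈ Finset.univ) => h i)
    (MvPolynomial.funext fun s => ?_)
  obtain ⟨i, hi⟩ := hc s
  rw [map_prod, map_zero]
  exact Finset.prod_eq_zero (Finset.mem_univ i) hi

open MvPolynomial in
lemma generic (τ : Type) [Fintype τ] : ∃ s : τ → ℤ, Function.Injective s ∧
    ∀ a b c a' b' c' : τ, a ≠ b → a ≠ c → b ≠ c → a' ≠ b' → a' ≠ c' → b' ≠ c' →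
      (s b - s a) * (s c' - s a') = (s c - s a) * (s b' - s a') → a = a' ∧ b = b' ∧ c = c' := by
  classical
  let P : (τ × τ) ⊕ (τ × τ × τ × τ × τ × τ) → MvPolynomial τ ℤ := fun x => match x with
    | .inl (a, b) => if a = b then 1 else X a - X b
    | .inr (a, b, c, a', b', c') => if a ≠ b ∧ a ≠ c ∧ b ≠ c ∧ a' ≠ b' ∧ a' ≠ c' ∧ b' ≠ c' ∧
        ¬ (a = a' ∧ b = b' ∧ c = c') then (X b - X a) * (X c' - X a') - (X c - X a) * (X b' - X a')
        else 1
  obtain ⟨s, hs⟩ := avoid P (by
    rintro (⟨a, b⟩ | ⟨a, b, c, a', b', c'⟩)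
    · simp only [P]
      split_ifs with h
      · simp
      · exact sub_ne_zero.2 fun e => h (X_injective e)
    · simp only [P]
      split_ifs with h
      · obtain ⟨h1, h2, h3, h4, h5, h6, h7⟩ := h
        intro e
        have := congrArg (eval fun x => if x = a then (0 : ℤ) else if x = b then 1 else
          if x = c then 3 else if x = a' then 10 else if x = b' then 100 else 1000) e
        simp only [map_sub, map_mul, eval_X, map_zero, if_true, h1.symm, h2.symm, h3.symm, h4.symm,
          h5.symm, h6.symm, if_false] at this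
        split_ifs at this <;> first | omega | simp_all
      · simp)
  refine ⟨s, fun a b e => ?_, fun a b c a' b' c' h1 h2 h3 h4 h5 h6 e => ?_⟩
  · by_contra h
    have := hs (.inl (a, b))
    simp [P, h, e] at this
  · by_contra h
    have := hs (.inr (a, b, c, a', b', c'))
    simp only [P] at this
    rw [if_pos ⟨h1, h2, h3, h4, h5, h6, h⟩] at this
    simp [e] at this

open Polynomial in
lemma one_var {K : Type*} [Field K] [CharZero K] (M : ℕ) : ∃ (s : Fin M × Fin (4 * M + 1) → ℤ)
    (N : ℕ), ∀ z w : Fin M → K[X], ∑ x, (z x.1 + C (s x : K)) ^ N = ∑ x, (w x.1 + C (s x : K)) ^ N →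
      ∀ i, (z i).natDegree ≠ 0 → z i = w i := by
  classical
  obtain ⟨s, hs, hs'⟩ := generic (Fin M × Fin (4 * M + 1))
  let ι := Bool × Fin M × Fin (4 * M + 1)
  refine ⟨s, Fintype.card ι * (Fintype.card ι + 1) + 1, fun z w h i hi => ?_⟩
  set N := Fintype.card ι * (Fintype.card ι + 1) + 1
  let y : Bool × Fin M → K[X] := fun b => cond b.1 (z b.2) (w b.2)
  have hc : ∀ (k) (c : K), (z i + C c).coeff (z i).natDegree = (z i).leadingCoeff ∧
      (y k + C c).coeff (z i).natDegree = (y k).coeff (z i).natDegree := fun k c => by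
    simp [coeff_C_of_ne_zero hi]
  have hz : z i ≠ 0 := fun e => hi (by simp [e])
  have hz0 : ∀ c : K, z i + C c ≠ 0 := fun c e => by
    have := (hc (true, i) c).1
    rw [e] at this
    exact leadingCoeff_ne_zero.2 hz this.symm
  have key : ∀ k, ∃ x : ι, x ≠ (true, i, k) ∧ ∃ c : K, c ≠ 0 ∧
      y (x.1, x.2.1) + C (s x.2 : K) = C c * (z i + C (s (i, k) : K)) := fun k => by
    let g : ι → K[X] := fun x => if x = (true, i, k) then 0 else y (x.1, x.2.1) + C (s x.2 : K)
    obtain ⟨x, c, hc0, hx⟩ := pow_ind g (z i + C (s (i, k) : K)) (hz0 _) N (Nat.lt_succ_self _) (by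
      rw [← Finset.add_sum_erase _ _ (Finset.mem_univ (i, k)), ← eq_sub_iff_add_eq] at h
      rw [h]
      refine sub_mem (Submodule.sum_mem _ fun x _ => Submodule.subset_span ⟨(false, x), ?_⟩)
        (Submodule.sum_mem _ fun x hx => Submodule.subset_span ⟨(true, x), ?_⟩)
      · simp [g, y, ι]
      · simp [g, y, ι, Finset.ne_of_mem_erase hx])
    by_cases e : x = (true, i, k)
    · simp only [g, if_pos e] at hx
      exact absurd hx.symm (mul_ne_zero (C_ne_zero.2 hc0) (hz0 _))
    · exact ⟨x, e, c, hc0, by simpa only [g, if_neg e] using hx⟩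
  choose x hx c hc0 hxc using key
  obtain ⟨γ, hγ⟩ := Fintype.exists_lt_card_fiber_of_mul_lt_card (n := 2)
    (fun k => ((x k).1, (x k).2.1)) (by simp; omega)
  obtain ⟨k1, k2, k3, m1, m2, m3, n12, n13, n23⟩ := Finset.two_lt_card_iff.1 hγ
  simp only [Finset.mem_filter, Finset.mem_univ, true_and] at m1 m2 m3
  have hcc : ∀ k, ((x k).1, (x k).2.1) = γ → c k = (y γ).coeff (z i).natDegree / (z i).leadingCoeff :=
    fun k m => by
      have := congrArg (fun q => q.coeff (z i).natDegree) (hxc k)
      simp only [coeff_C_mul, (hc γ _).1, m, (hc γ _).2] at this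
      rw [this, mul_div_cancel_right₀ _ (leadingCoeff_ne_zero.2 hz)]
  have hd : ∀ k l, ((x k).1, (x k).2.1) = γ → ((x l).1, (x l).2.1) = γ →
      ((s (x k).2 - s (x l).2 : ℤ) : K) = c k1 * ((s (i, k) - s (i, l) : ℤ) : K) := fun k l m m' => by
    have e1 := hxc k
    have e2 := hxc l
    rw [m, hcc k m, ← hcc k1 m1] at e1
    rw [m', hcc l m', ← hcc k1 m1] at e2
    apply C_injective
    push_cast
    simp only [map_sub, map_mul]
    linear_combination e1 - e2
  have hne : ∀ k l, ((x k).1, (x k).2.1) = γ → ((x l).1, (x l).2.1) = γ → k ≠ l →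
      (x k).2 ≠ (x l).2 := fun k l m m' n e => by
    have := hd k l m m'
    rw [e, sub_self, Int.cast_zero, eq_comm, mul_eq_zero, Int.cast_eq_zero, sub_eq_zero] at this
    exact this.elim (hc0 _) fun e' => n (congrArg Prod.snd (hs e'))
  obtain ⟨e1, e2, -⟩ := hs' (i, k1) (i, k2) (i, k3) (x k1).2 (x k2).2 (x k3).2 (by simpa) (by simpa)
    (by simpa) (hne _ _ m1 m2 n12) (hne _ _ m1 m3 n13) (hne _ _ m2 m3 n23) (by
      apply Int.cast_injective (α := K)
      rw [Int.cast_mul, Int.cast_mul, hd _ _ m3 m1, hd _ _ m2 m1]; ring)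
  have c1 : c k1 = 1 := by
    have := hd _ _ m2 m1
    rw [← e1, ← e2] at this
    have h0 : ((s (i, k2) - s (i, k1) : ℤ) : K) ≠ 0 := by
      rw [Int.cast_ne_zero, sub_ne_zero]
      exact fun e' => n12 (congrArg Prod.snd (hs e')).symm
    exact mul_right_cancel₀ h0 (by rw [← this, one_mul])
  have := hxc k1
  rw [c1, ← e1, C_1, one_mul, add_left_inj] at this
  rcases hb : (x k1).1 with _ | _
  · rw [hb] at this; exact this.symm
  · exact absurd (Prod.ext hb e1.symm) (hx k1)

lemma vand {K V : Type*} [Field K] [CharZero K] [AddCommGroup V] [Module K V] {n M : ℕ}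
    (v : Fin n → V) (T : Finset (Fin M)) (hT : n ≤ T.card)
    (h : ∀ i ∈ T, ∑ j : Fin n, ((i : ℕ) : K) ^ (j : ℕ) • v j = 0) (j : Fin n) : v j = 0 := by
  rw [← Module.forall_dual_apply_eq_zero_iff K]
  intro f
  obtain ⟨T', h1, h2⟩ := Finset.exists_subset_card_eq hT
  let e := (T'.equivFinOfCardEq h2).symm
  refine congrFun (Matrix.eq_zero_of_forall_index_sum_pow_mul_eq_zero (v := fun j => f (v j))
    (f := fun k => (((e k : Fin M) : ℕ) : K)) (fun a b hab => e.injective (Subtype.ext (Fin.ext
      (Nat.cast_injective hab)))) fun k => ?_) j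
  simpa [map_sum] using congrArg f (h _ (h1 (e k).2))

open MvPolynomial in
theorem result (K : Type*) [Field K] [CharZero K] (n : ℕ) (_hn : 2 ≤ n) :
    ∃ p : MvPolynomial (Fin n) K, ∀ φ ψ : MvPolynomial (Fin n) K →ₐ[K] MvPolynomial (Fin n) K,
      NonDegenerate φ → NonDegenerate ψ → φ p = ψ p → φ = ψ := by
  classical
  obtain ⟨s, N, H⟩ := one_var (K := K) (2 * n)
  let l : Fin (2 * n) → MvPolynomial (Fin n) K := fun i =>
    ∑ j : Fin n, ((i : ℕ) : K) ^ (j : ℕ) • X j
  refine ⟨∑ x, (l x.1 + C (s x : K)) ^ N, fun φ ψ hφ _ h => ?_⟩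
  have h1 : ∀ i, φ (l i) ≠ C (constantCoeff (φ (l i))) → φ (l i) = ψ (l i) := fun i hi => by
    by_contra hne
    obtain ⟨q, hq⟩ := avoid ![φ (l i) - C (constantCoeff (φ (l i))), φ (l i) - ψ (l i)] (by
      intro k; fin_cases k <;> simpa [sub_eq_zero])
    let θ : MvPolynomial (Fin n) K →ₐ[K] Polynomial K :=
      aeval fun j => Polynomial.C (q j) * Polynomial.X
    have hθ : ∀ (t : K) f, (θ f).eval t = eval (fun j => q j * t) f := fun t f => by
      induction f using MvPolynomial.induction_on <;> simp_all [θ]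
    have h2 := H (fun i => θ (φ (l i))) (fun i => θ (ψ (l i))) (by
      simpa [map_sum, θ] using congrArg θ h) i (fun e => hq 0 (by
        have e1 := hθ 1 (φ (l i))
        have e0 := hθ 0 (φ (l i))
        rw [Polynomial.eq_C_of_natDegree_eq_zero e, Polynomial.eval_C] at e1 e0
        simp only [mul_one, mul_zero] at e1 e0
        simp [← e1, e0, ← eval_zero']))
    refine hq 1 ?_
    have := congrArg (Polynomial.eval 1) h2
    simpa [hθ, sub_eq_zero] using this
  let T := Finset.univ.filter fun i => φ (l i) = C (constantCoeff (φ (l i)))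
  have hT : T.card < n := by
    by_contra! hc
    obtain ⟨f, hf⟩ := hφ
    have h3 := vand (K := K) (fun j => φ (X j) - C (constantCoeff (φ (X j)))) T hc fun i hi => by
      have := (Finset.mem_filter.1 hi).2
      simp only [smul_sub, Finset.sum_sub_distrib, sub_eq_zero]
      simpa [l, map_sum, smul_eq_C_mul] using this
    have h4 : φ = (Algebra.ofId K _).comp (aeval fun j => constantCoeff (φ (X j))) :=
      algHom_ext fun j => by simpa [sub_eq_zero, Algebra.ofId_apply] using h3 j
    exact hf _ (by rw [h4]; rfl)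
  refine algHom_ext fun j => sub_eq_zero.1 (vand (K := K) (fun j => φ (X j) - ψ (X j)) Tᶜ
    (by rw [Finset.card_compl, Fintype.card_fin]; omega) (fun i hi => ?_) j)
  have := h1 i (by simpa [T] using hi)
  simp only [smul_sub, Finset.sum_sub_distrib, sub_eq_zero]
  simpa [l, map_sum] using this

end Pool.Agent.Results.MP_d61c7e_al.Exists
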